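import Mathlib
import Pool.Agent.K3h20.JA.A7

/-!
# The Julia sets of `s R(z ^ n)` have small area

Let `R` be a rational map and let `s` run through a closed annulus in which `|s R(0)| = 1` and
`|s R(∞)| = 1` never hold. A critical point `y` of `R` is live if `|s R(y)| = 1` for some of
these `s`. Nothing is assumed about the orbits of the critical points of `f = s R(z ^ n)`.

If the live critical points have multiplicity at most `m`, then for large `n` and EVERY `s` the
Julia set of `s R(z ^ n)` has area at most `C / n ^ (1 + 2 / m)`, and so has the support of every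
invariant line field on the Julia set.

Method: in the coordinate `w = z ^ n` the map is `w ↦ (s R(w)) ^ n`. Its inverse branches contract by
a factor comparable to `1 / (n |g|)`, `g = R' / R`, and the points which stay in the annulus lie
close to the level curve `|s R| = 1`, which has small area. A covering argument shows that at least
half of the area of every forward invariant set in the annulus lies at distance at most
`C n ^ (-1 / m)` from the live critical points.
-/

set_option autoImplicit false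

open Polynomial Filter Topology MeasureTheory

namespace Pool.Agent.Results.MP_70a088_an.JuliaAreaFamilies

/-- The rational function `P / Q` of the plane. -/
noncomputable def map (P Q : ℂ[X]) : ℂ → ℂ := fun z => P.eval z / Q.eval z

/-- `f` is the rational map `P / Q` of the Riemann sphere, in lowest terms. -/
def IsRationalMap (P Q : ℂ[X]) (f : OnePoint ℂ → OnePoint ℂ) : Prop :=
  IsCoprime P Q ∧ Q ≠ 0 ∧ Continuous f ∧
    ∀ z : ℂ, Q.eval z ≠ 0 → f (OnePoint.some z) = OnePoint.some (P.eval z / Q.eval z)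

/-- The Fatou set: the points with a neighbourhood on which the iterates are equicontinuous (the
neighbourhoods `W` of the diagonal are the entourages of the uniform structure of the sphere). -/
def fatou (f : OnePoint ℂ → OnePoint ℂ) : Set (OnePoint ℂ) :=
  {x | ∃ U ∈ 𝓝 x, ∀ y ∈ U, ∀ W ∈ 𝓝ˢ (Set.diagonal (OnePoint ℂ)),
    ∀ᶠ z in 𝓝 y, ∀ n : ℕ, (f^[n] y, f^[n] z) ∈ W}

/-- The finite points of the Julia set. -/
def julia (f : OnePoint ℂ → OnePoint ℂ) : Set ℂ := {z : ℂ | OnePoint.some z ∉ fatou f}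

/-- `μ` is an invariant line field of `P / Q` supported on the Julia set; it is of absolute value
one on the set `S` of positive measure, and vanishes off `S`. -/
structure LineField (P Q : ℂ[X]) (f : OnePoint ℂ → OnePoint ℂ) (μ : ℂ → ℂ) (S : Set ℂ) : Prop where
  meas : Measurable μ
  one : ∀ z ∈ S, ‖μ z‖ = 1
  off : ∀ z, z ∉ S → μ z = 0
  pos : 0 < volume S
  sub : S ⊆ julia f
  inv : ∀ᵐ z : ℂ,
    μ (map P Q z) * (starRingEnd ℂ (deriv (map P Q) z) / deriv (map P Q) z) = μ z

/-- `P' Q - P Q'`, the numerator of the derivative of `P / Q`. -/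
noncomputable def wro (P Q : ℂ[X]) : ℂ[X] := derivative P * Q - P * derivative Q

/-- The finite critical points `y` of `R = P / Q` with `1 / b ≤ |R(y)| ≤ 1 / a`. -/
def live (P Q : ℂ[X]) (a b : ℝ) : Set ℂ :=
  {y | (wro P Q).eval y = 0 ∧ a * ‖P.eval y‖ ≤ ‖Q.eval y‖ ∧ ‖Q.eval y‖ ≤ b * ‖P.eval y‖}

theorem isRat {P Q : ℂ[X]} {f : OnePoint ℂ → OnePoint ℂ} (h : IsRationalMap P Q f) :
    Helper114.Herman.IsRat f P Q := ⟨h.2.2.1, h.1, h.2.1, h.2.2.2⟩

/-- Let `R = P / Q` be of degree `D ≥ 1` and `0 < a ≤ b` such that `|s R(0)| ≠ 1`, `|s R(∞)| ≠ 1`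
for `a ≤ |s| ≤ b`. Let every critical point `y` of `R` with `1 / b ≤ |R(y)| ≤ 1 / a` be of
multiplicity at most `m`, `m ≥ 1`. Then there are `C` and `n₀` such that for all `n ≥ n₀` and for
every `s` with `a ≤ |s| ≤ b` the Julia set of `s R(z ^ n)`, and the support of every invariant line
field on the Julia set, have area at most `C / n ^ (1 + 2 / m)`. -/
theorem result : ∀ P Q : ℂ[X], IsCoprime P Q → ∀ D : ℕ,
    D = max P.natDegree Q.natDegree → 1 ≤ D → ∀ a b : ℝ, 0 < a → a ≤ b →
    (∀ t : ℝ, a ≤ t → t ≤ b →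
      t * ‖P.coeff 0‖ ≠ ‖Q.coeff 0‖ ∧ t * ‖P.coeff D‖ ≠ ‖Q.coeff D‖) →
    ∀ m : ℕ, 1 ≤ m → (∀ y ∈ live P Q a b, rootMultiplicity y (wro P Q) ≤ m) →
      ∃ C : ℝ, 0 < C ∧ ∃ n₀ : ℕ, ∀ n : ℕ, n₀ ≤ n → ∀ s : ℂ, a ≤ ‖s‖ → ‖s‖ ≤ b →
        ∀ f : OnePoint ℂ → OnePoint ℂ,
        IsRationalMap (Polynomial.C s * expand ℂ n P) (expand ℂ n Q) f →
        volume (julia f) ≤ ENNReal.ofReal (C / (n : ℝ) ^ (1 + 2 / (m : ℝ))) ∧
        ∀ (μ : ℂ → ℂ) (S : Set ℂ),
          LineField (Polynomial.C s * expand ℂ n P) (expand ℂ n Q) f μ S →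
          volume S ≤ ENNReal.ofReal (C / (n : ℝ) ^ (1 + 2 / (m : ℝ))) := by
  intro P Q hc D hD hD1 a b ha hab h0 m hm hmult
  obtain ⟨C, hC, n₀, h⟩ := K3h20.JA.area hc hD hD1 ha hab h0 hm hmult
  refine ⟨C, hC, n₀, fun n hn s hs1 hs2 f hf => ?_⟩
  have h1 : volume (julia f) ≤ ENNReal.ofReal (C / (n : ℝ) ^ (1 + 2 / (m : ℝ))) :=
    h n hn s hs1 hs2 f (isRat hf)
  exact ⟨h1, fun μ S hS => (measure_mono hS.sub).trans h1⟩

end Pool.Agent.Results.MP_70a088_an.JuliaAreaFamilies
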