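import Mathlib
import Pool.Agent.K3h20.JA.A8

/-!
# The Julia sets of `s R(z ^ n)` have area zero for most `s`

Let `R` be a rational map and let `s` run through a closed annulus in which `|s R(0)| = 1` and
`|s R(∞)| = 1` never hold. A critical point `y` of `R` is live if `|s R(y)| = 1` for some of
these `s`. If the live critical points are simple and the moduli of the critical values are
different, then for `s` outside a set of area at most `C / n ^ 3` the Julia set has area zero, and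
there is no invariant line field on it; every `s` is at distance at most `C / n ^ 2` from such an
`s'`.
-/

set_option autoImplicit false

open Polynomial Filter Topology MeasureTheory

namespace Pool.Agent.Results.MP_70a088_an.NullJuliaFamilies

/-- The rational function `P / Q` of the plane. -/
noncomputable def map (P Q : ℂ[X]) : ℂ → ℂ := fun z => P.eval z / Q.eval z

/-- `f` is the rational map `P / Q` of the Riemann sphere, in lowest terms. -/
def IsRationalMap (P Q : ℂ[X]) (f : OnePoint ℂ → OnePoint ℂ) : Prop :=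
  IsCoprime P Q ∧ Q ≠ 0 ∧ Continuous f ∧
    ∀ z : ℂ, Q.eval z ≠ 0 → f (OnePoint.some z) = OnePoint.some (P.eval z / Q.eval z)

/-- The Fatou set: the points with a neighbourhood on which the iterates are equicontinuous (the
neighbourhoods `W` of the diagonal are the entourages of the uniform structure of the sphere). -/
def fatou (f : OnePoint ℂ → OnePoint ℂ) : Set (OnePoint ℂ) :=
  {x | ∃ U ∈ 𝓝 x, ∀ y ∈ U, ∀ W ∈ 𝓝ˢ (Set.diagonal (OnePoint ℂ)),
    ∀ᶠ z in 𝓝 y, ∀ n : ℕ, (f^[n] y, f^[n] z) ∈ W}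

/-- The finite points of the Julia set. -/
def julia (f : OnePoint ℂ → OnePoint ℂ) : Set ℂ := {z : ℂ | OnePoint.some z ∉ fatou f}

/-- `μ` is an invariant line field of `P / Q` supported on the Julia set; it is of absolute value
one on the set `S` of positive measure, and vanishes off `S`. -/
structure LineField (P Q : ℂ[X]) (f : OnePoint ℂ → OnePoint ℂ) (μ : ℂ → ℂ) (S : Set ℂ) : Prop where
  meas : Measurable μ
  one : ∀ z ∈ S, ‖μ z‖ = 1
  off : ∀ z, z ∉ S → μ z = 0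
  pos : 0 < volume S
  sub : S ⊆ julia f
  inv : ∀ᵐ z : ℂ,
    μ (map P Q z) * (starRingEnd ℂ (deriv (map P Q) z) / deriv (map P Q) z) = μ z

/-- `P / Q` is a rational map whose Julia set has area zero; it has no invariant line field on the
Julia set. -/
def NullJulia (P Q : ℂ[X]) : Prop :=
  (∃ f, IsRationalMap P Q f) ∧ ∀ f, IsRationalMap P Q f → volume (julia f) = 0 ∧
    ¬ ∃ (μ : ℂ → ℂ) (S : Set ℂ), LineField P Q f μ S

/-- `P' Q - P Q'`, the numerator of the derivative of `P / Q`. -/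
noncomputable def wro (P Q : ℂ[X]) : ℂ[X] := derivative P * Q - P * derivative Q

/-- The finite critical points `y` of `R = P / Q` with `1 / b ≤ |R(y)| ≤ 1 / a`. -/
def live (P Q : ℂ[X]) (a b : ℝ) : Set ℂ :=
  {y | (wro P Q).eval y = 0 ∧ a * ‖P.eval y‖ ≤ ‖Q.eval y‖ ∧ ‖Q.eval y‖ ≤ b * ‖P.eval y‖}

theorem isRat {P Q : ℂ[X]} {f : OnePoint ℂ → OnePoint ℂ} (h : IsRationalMap P Q f) :
    Helper114.Herman.IsRat f P Q := ⟨h.2.2.1, h.1, h.2.1, h.2.2.2⟩

theorem isRat' {P Q : ℂ[X]} {f : OnePoint ℂ → OnePoint ℂ} (h : Helper114.Herman.IsRat f P Q) :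
    IsRationalMap P Q f := ⟨h.cop, h.ne, h.cont, h.eval⟩

theorem nullJulia {P Q : ℂ[X]} (h : K3h20.JA.NJ P Q) : NullJulia P Q := by
  obtain ⟨⟨g, hg⟩, h2⟩ := h
  refine ⟨⟨g, isRat' hg⟩, fun f hf => ?_⟩
  have h3 : volume (julia f) = 0 := h2 f (isRat hf)
  refine ⟨h3, ?_⟩
  rintro ⟨μ, S, hS⟩
  exact hS.pos.ne' (measure_mono_null hS.sub h3)

/-- Let `R = P / Q` be of degree `D ≥ 1` and `0 < a ≤ b` such that `|s R(0)| ≠ 1`, `|s R(∞)| ≠ 1`
for `a ≤ |s| ≤ b`. Let every critical point `y` of `R` with `1 / b ≤ |R(y)| ≤ 1 / a` be simple and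
let its modulus `|R(y)|` be different from those of the other critical points. Then there are `C`
and `n₀` such that for all `n ≥ n₀` the set of the `s`, `a ≤ |s| ≤ b`, for which the Julia set of
`s R(z ^ n)` does not have area zero, has area at most `C / n ^ 3`, and every `s` with
`a ≤ |s| ≤ b` is at distance at most `C / n ^ 2` from some `s'` for which the Julia set of
`s' R(z ^ n)` has area zero (and there is no invariant line field on it). -/
theorem result : ∀ P Q : ℂ[X], IsCoprime P Q → ∀ D : ℕ,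
    D = max P.natDegree Q.natDegree → 1 ≤ D → ∀ a b : ℝ, 0 < a → a ≤ b →
    (∀ t : ℝ, a ≤ t → t ≤ b →
      t * ‖P.coeff 0‖ ≠ ‖Q.coeff 0‖ ∧ t * ‖P.coeff D‖ ≠ ‖Q.coeff D‖) →
    (∀ y ∈ live P Q a b, (derivative (wro P Q)).eval y ≠ 0) →
    (∀ y ∈ live P Q a b, ∀ y' : ℂ, (wro P Q).eval y' = 0 →
      ‖P.eval y'‖ * ‖Q.eval y‖ = ‖P.eval y‖ * ‖Q.eval y'‖ → y' = y) →
    ∃ C : ℝ, 0 < C ∧ ∃ n₀ : ℕ, ∀ n : ℕ, n₀ ≤ n →
      volume {s : ℂ | a ≤ ‖s‖ ∧ ‖s‖ ≤ b ∧
        ¬ NullJulia (Polynomial.C s * expand ℂ n P) (expand ℂ n Q)} ≤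
        ENNReal.ofReal (C / n ^ 3) ∧
      ∀ s : ℂ, a ≤ ‖s‖ → ‖s‖ ≤ b → ∃ s' : ℂ, ‖s' - s‖ ≤ C / n ^ 2 ∧
        NullJulia (Polynomial.C s' * expand ℂ n P) (expand ℂ n Q) := by
  intro P Q hc D hD hD1 a b ha hab h0 h1 h2
  obtain ⟨C, hC, n₀, h⟩ := K3h20.JA.main_gen
    (fun n s => K3h20.JA.NJ (Polynomial.C s * expand ℂ n P) (expand ℂ n Q))
    (K3h20.JA.dyn_null hc) hc hD hD1 ha hab h0 h1 h2
  refine ⟨C, hC, n₀, fun n hn => ⟨?_, ?_⟩⟩
  · refine (measure_mono ?_).trans (h n hn).1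
    rintro s ⟨hs1, hs2, hs3⟩
    exact ⟨hs1, hs2, fun h3 => hs3 (nullJulia h3)⟩
  · intro s hs1 hs2
    obtain ⟨s', h3, h4⟩ := (h n hn).2 s hs1 hs2
    exact ⟨s', h3, nullJulia h4⟩

end Pool.Agent.Results.MP_70a088_an.NullJuliaFamilies
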