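import Mathlib
import Pool.Agent.K3h20.EJ.B12

/-!
# Julia sets of the entire functions `lam P exp Q` with a superattracting fixed point

Let `P ≠ 0` and `Q` be polynomials, `z ^ 2 ∣ P`, `deg Q ≥ 1`. The entire functions
`lam P exp Q`, `lam ≠ 0`, are transcendental, have finitely many singular values and a
superattracting fixed point at `0`. We show that for every `lam` the Julia set, and so the support
of every invariant line field on it, has area at most `C R ^ 2 |lam| ^ (-κ)` in every disc of
radius `R` about `0`, where `κ = 1 / (10 (deg P + deg Q))` and `C` depends only on `P` and `Q`.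
-/

set_option autoImplicit false

open Polynomial Filter Topology MeasureTheory

namespace Pool.Agent.Results.MP_70a088_an.SmallJuliaEntire

/-- The entire function `lam P exp Q`. -/
noncomputable def entire (P Q : ℂ[X]) (lam : ℂ) : ℂ → ℂ :=
  fun z => lam * P.eval z * Complex.exp (Q.eval z)

/-- The Fatou set of an entire function: the points with a neighbourhood on which the iterates are
equicontinuous as maps to the sphere (the neighbourhoods `V` of the diagonal are the entourages of
the uniform structure of the sphere). -/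
def fatou (f : ℂ → ℂ) : Set ℂ :=
  {z | ∃ U ∈ 𝓝 z, ∀ y ∈ U, ∀ V ∈ 𝓝ˢ (Set.diagonal (OnePoint ℂ)),
    ∀ᶠ z' in 𝓝 y, ∀ n : ℕ, (OnePoint.some (f^[n] y), OnePoint.some (f^[n] z')) ∈ V}

/-- The Julia set. -/
def julia (f : ℂ → ℂ) : Set ℂ := (fatou f)ᶜ

/-- `μ` is an invariant line field of `f` supported on the Julia set; it is of absolute value one
on the set `S` of positive measure, and vanishes off `S`. -/
structure LineField (f μ : ℂ → ℂ) (S : Set ℂ) : Prop where
  meas : Measurable μ
  one : ∀ z ∈ S, ‖μ z‖ = 1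
  off : ∀ z, z ∉ S → μ z = 0
  pos : 0 < volume S
  sub : S ⊆ julia f
  inv : ∀ᵐ z : ℂ, μ (f z) * (starRingEnd ℂ (deriv f z) / deriv f z) = μ z

/-- Let `P ≠ 0` and `Q` be polynomials such that `z ^ 2` divides `P` and `deg Q ≥ 1`. There is `C`
such that for all `lam ≠ 0` and `R > 0` the part of the Julia set of `lam P exp Q` in the disc
`|z| < R` has area at most `C R ^ 2 |lam| ^ (-κ)`, where `κ = 1 / (10 (deg P + deg Q))`. The same
holds for the support of every invariant line field on the Julia set. -/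
theorem result : ∀ P Q : ℂ[X], P ≠ 0 → X ^ 2 ∣ P → 1 ≤ Q.natDegree →
    ∃ C : ℝ, 0 < C ∧ ∀ lam : ℂ, lam ≠ 0 → ∀ R : ℝ, 0 < R →
      volume (julia (entire P Q lam) ∩ Metric.ball 0 R) ≤
        ENNReal.ofReal (C * R ^ 2 * ‖lam‖ ^ (-(1 / (10 * (P.natDegree + Q.natDegree : ℝ))))) ∧
      ∀ (μ : ℂ → ℂ) (S : Set ℂ), LineField (entire P Q lam) μ S →
        volume (S ∩ Metric.ball 0 R) ≤
          ENNReal.ofReal (C * R ^ 2 * ‖lam‖ ^ (-(1 / (10 * (P.natDegree + Q.natDegree : ℝ))))) := by
  intro P Q hP hX hQ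
  obtain ⟨C, hC, h⟩ := K3h20.EJ.main P Q hP hX hQ
  refine ⟨C, hC, fun lam hlam R hR => ?_⟩
  have h1 : volume (julia (entire P Q lam) ∩ Metric.ball 0 R) ≤
      ENNReal.ofReal (C * R ^ 2 * ‖lam‖ ^ (-(1 / (10 * (P.natDegree + Q.natDegree : ℝ))))) :=
    h lam hlam R hR
  refine ⟨h1, fun μ S hS => (measure_mono ?_).trans h1⟩
  exact Set.inter_subset_inter_left _ hS.sub

end Pool.Agent.Results.MP_70a088_an.SmallJuliaEntire
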