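import Mathlib
import Pool.Agent.K3h78.LF.B12

/-!
# Rational maps with a rotational symmetry of large order: the Julia set has small area

We consider the rational maps `f` with `f (ω z) = ω ^ k f (z)` for the roots of unity `ω` of order
`n`; these are the maps `z ^ a A (z ^ n) / (z ^ b B (z ^ n))` with `a - b` congruent to `k` modulo
`n`. Nothing is assumed about the orbits of the critical points.

(1) If `0` and infinity are superattracting or exchanged (exponents of modulus at least two, not both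
of modulus two) and `n` is large, then EVERY such map attracts almost every point to `{0, ∞}`, up
to a set of area at most `C (log n) ^ 2 / n`; this set contains the Julia set, so the support of
any invariant line field on the Julia set has at most this area. Among the multiples `e ^ t f`,
`|t| ≤ H`, all but a set of `t` of length at most `C (log n) ^ 2 / n` have a Julia set of area zero,
hence no invariant line field.

(2) In all cases with exponents of modulus at least two the length of the exceptional set tends to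
zero.

(3), (4) Near every map with a symmetry of large order (`k` not congruent to `1` or `-1` modulo `n`)
there is a map of the same degree with a Julia set of area zero.

Method: in the coordinate `log |z|` the map is close to a piecewise affine map of the line with
slopes the exponents; almost all orbits of an expanding piecewise affine map with two branches and
`1 / |α| + 1 / |β| < 1` leave. If all critical points leave an annulus whose complement is
trapped, then all inverse branches exist near the points which stay, and Koebe's theorem gives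
porosity and area zero. The complement of the annulus is in the Fatou set by Montel's theorem.
-/

set_option autoImplicit false

open Polynomial Filter Topology MeasureTheory

namespace Pool.Agent.Results.MP_70a088_an.SymmetricMaps

/-- The rational function `P / Q` of the plane. -/
noncomputable def map (P Q : ℂ[X]) : ℂ → ℂ := fun z => P.eval z / Q.eval z

/-- `f` is the rational map `P / Q` of the Riemann sphere, in lowest terms. -/
def IsRationalMap (P Q : ℂ[X]) (f : OnePoint ℂ → OnePoint ℂ) : Prop :=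
  IsCoprime P Q ∧ Q ≠ 0 ∧ Continuous f ∧
    ∀ z : ℂ, Q.eval z ≠ 0 → f (OnePoint.some z) = OnePoint.some (P.eval z / Q.eval z)

/-- The Fatou set: the points with a neighbourhood on which the iterates are equicontinuous (the
neighbourhoods `W` of the diagonal are the entourages of the uniform structure of the sphere). -/
def fatou (f : OnePoint ℂ → OnePoint ℂ) : Set (OnePoint ℂ) :=
  {x | ∃ U ∈ 𝓝 x, ∀ y ∈ U, ∀ W ∈ 𝓝ˢ (Set.diagonal (OnePoint ℂ)),
    ∀ᶠ z in 𝓝 y, ∀ n : ℕ, (f^[n] y, f^[n] z) ∈ W}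

/-- The finite points of the Julia set. -/
def julia (f : OnePoint ℂ → OnePoint ℂ) : Set ℂ := {z : ℂ | OnePoint.some z ∉ fatou f}

/-- The finite points whose orbits do not converge to the pair `{0, ∞}`. -/
def outside (f : OnePoint ℂ → OnePoint ℂ) : Set ℂ :=
  {z : ℂ | ¬ Tendsto (fun k : ℕ => f^[k] (OnePoint.some z)) atTop
    (𝓝ˢ {OnePoint.some (0 : ℂ), OnePoint.infty})}

/-- `μ` is an invariant line field of `P / Q` supported on the Julia set; it is of absolute value
one on the set `S` of positive measure, and vanishes off `S`. -/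
structure LineField (P Q : ℂ[X]) (f : OnePoint ℂ → OnePoint ℂ) (μ : ℂ → ℂ) (S : Set ℂ) : Prop where
  meas : Measurable μ
  one : ∀ z ∈ S, ‖μ z‖ = 1
  off : ∀ z, z ∉ S → μ z = 0
  pos : 0 < volume S
  sub : S ⊆ julia f
  inv : ∀ᵐ z : ℂ,
    μ (map P Q z) * (starRingEnd ℂ (deriv (map P Q) z) / deriv (map P Q) z) = μ z

/-- `P / Q` is a rational map whose Julia set has area zero; it has no invariant line field on the
Julia set. -/
def NullJulia (P Q : ℂ[X]) : Prop :=
  (∃ f, IsRationalMap P Q f) ∧ ∀ f, IsRationalMap P Q f → volume (julia f) = 0 ∧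
    ¬ ∃ (μ : ℂ → ℂ) (S : Set ℂ), LineField P Q f μ S

/-- `P / Q` is a rational map and almost every point is attracted by `{0, ∞}` and is not in the
Julia set; it has no invariant line field on the Julia set. -/
def NullOutside (P Q : ℂ[X]) : Prop :=
  (∃ f, IsRationalMap P Q f) ∧ ∀ f, IsRationalMap P Q f → volume (julia f ∪ outside f) = 0 ∧
    ¬ ∃ (μ : ℂ → ℂ) (S : Set ℂ), LineField P Q f μ S

/-- `A` and `B` are coprime of degree at most `D`, their coefficients have modulus at most `M`, and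
their constant and leading coefficients have modulus at least `1 / M`. -/
structure Normalised (D : ℕ) (M : ℝ) (A B : ℂ[X]) : Prop where
  coprime : IsCoprime A B
  degree : A.natDegree ≤ D ∧ B.natDegree ≤ D
  upper : ∀ k, ‖A.coeff k‖ ≤ M ∧ ‖B.coeff k‖ ≤ M
  lower : M⁻¹ ≤ ‖A.coeff 0‖ ∧ M⁻¹ ≤ ‖B.coeff 0‖ ∧ M⁻¹ ≤ ‖A.leadingCoeff‖ ∧ M⁻¹ ≤ ‖B.leadingCoeff‖

/-- The polynomial `z ^ a A (z ^ n)`. -/
noncomputable def twist (a n : ℕ) (A : ℂ[X]) : ℂ[X] := X ^ a * expand ℂ n A

/-- The exponent at `0` of `z ^ a A (z ^ n) / (z ^ b B (z ^ n))` (for `A 0`, `B 0` nonzero). -/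
def expZero (a b : ℕ) : ℝ := (a : ℝ) - b

/-- The exponent at infinity of `z ^ a A (z ^ n) / (z ^ b B (z ^ n))`. -/
noncomputable def expInfty (a b n : ℕ) (A B : ℂ[X]) : ℝ :=
  ((a : ℝ) + n * A.natDegree) - (b + n * B.natDegree)

/-- `f (ω z) = ω ^ k f (z)` for `f = P / Q` and for all `ω` with `ω ^ n = 1`. -/
def Symmetric (n : ℕ) (k : ℤ) (P Q : ℂ[X]) : Prop :=
  ∀ ω : ℂ, ω ^ n = 1 → ∀ z : ℂ, P.eval (ω * z) * Q.eval z = ω ^ k * (P.eval z * Q.eval (ω * z))

theorem twist_one (b n : ℕ) (B : ℂ[X]) : K3h78.RS.PP 1 b n B = twist b n B := by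
  unfold K3h78.RS.PP twist; rw [C_1, one_mul]

theorem twist_mul (s : ℂ) (a n : ℕ) (A : ℂ[X]) : K3h78.RS.PP s a n A = C s * twist a n A := by
  unfold K3h78.RS.PP twist; rw [mul_assoc]

theorem nrm {D : ℕ} {M : ℝ} {A B : ℂ[X]} (h : Normalised D M A B) : K3h78.RS.Nrm D M A B :=
  ⟨h.coprime, h.degree.1, h.degree.2, fun k => (h.upper k).1, fun k => (h.upper k).2, h.lower.1,
    h.lower.2.1, h.lower.2.2.1, h.lower.2.2.2⟩

theorem isRat {P Q : ℂ[X]} {f : OnePoint ℂ → OnePoint ℂ} (h : IsRationalMap P Q f) :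
    Helper114.Herman.IsRat f P Q := ⟨h.2.2.1, h.1, h.2.1, h.2.2.2⟩

theorem isRat' {P Q : ℂ[X]} {f : OnePoint ℂ → OnePoint ℂ} (h : Helper114.Herman.IsRat f P Q) :
    IsRationalMap P Q f := ⟨h.cop, h.ne, h.cont, h.eval⟩

theorem union_eq (f : OnePoint ℂ → OnePoint ℂ) : julia f ∪ outside f = K3h78.LF.bad f := rfl

theorem nullOutside {P Q : ℂ[X]} (h : K3h78.LF.NA P Q) : NullOutside P Q := by
  obtain ⟨⟨g, hg⟩, h2⟩ := h
  refine ⟨⟨g, isRat' hg⟩, fun f hf => ?_⟩
  have h3 := h2 f (isRat hf)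
  rw [← union_eq] at h3
  refine ⟨h3, ?_⟩
  rintro ⟨μ, S, hS⟩
  exact hS.pos.ne' (measure_mono_null (hS.sub.trans Set.subset_union_left) h3)

theorem nullJulia {P Q : ℂ[X]} (h : K3h78.LF.ZJ P Q) : NullJulia P Q := by
  obtain ⟨⟨g, hg⟩, h2⟩ := h
  refine ⟨⟨g, isRat' hg⟩, fun f hf => ?_⟩
  have h3 : volume (julia f) = 0 := h2 f (isRat hf)
  refine ⟨h3, ?_⟩
  rintro ⟨μ, S, hS⟩
  exact hS.pos.ne' (measure_mono_null hS.sub h3)

/-- Let `f = z ^ a A (z ^ n) / (z ^ b B (z ^ n))` with `a = 0` or `b = 0`, with `A`, `B` normalised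
and with exponents at `0` and at infinity of modulus at least two and at most `κ n`.

(1) If the exponents are not both of modulus two, then for EVERY `|t| ≤ H` the set of the points in
the Julia set of `e ^ t f`, or not attracted by `{0, ∞}`, has area at most `C (log n) ^ 2 / n`, and
so has the support of every invariant line field on the Julia set; and for `|t| ≤ H` outside a set
of length at most `C (log n) ^ 2 / n` this area is zero.

(2) In all cases the area is zero for `|t| ≤ H` outside a set of length at most `τ`, for `n` large.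

(3) Let `i, j < n`, one of them zero, `i - j` not congruent to `1` or `-1` modulo `n`, and let `P`,
`Q` have degree at most `D ≤ K n`, `D` congruent to `i` or `j`, and coefficients of modulus at most
`M`, those of `P` at indices not congruent to `i` and those of `Q` at indices not congruent to `j`
of modulus less than `ε`. Then there is a rational map of degree `D` with coefficients at distance
less than `ε` from those of `P`, `Q`, whose Julia set has area zero.

(4) In particular every rational map with `f (ω z) = ω ^ k f (z)` for `ω ^ n = 1`, `k` not congruent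
to `1` or `-1` modulo `n`, of degree at most `K n` and with coefficients at most `M`, is at distance
less than `ε` from a map of the same degree with the same symmetry and a Julia set of area zero, if
`n` is large. -/
theorem result :
    (∀ (D : ℕ) (M κ H : ℝ), 0 < M → 0 ≤ κ → ∃ C : ℝ, 0 < C ∧ ∃ n₀ : ℕ, ∀ n : ℕ, n₀ ≤ n →
      ∀ (a b : ℕ) (A B : ℂ[X]), Normalised D M A B → (a = 0 ∨ b = 0) →
        2 ≤ |expZero a b| → 2 ≤ |expInfty a b n A B| →
        (3 ≤ |expZero a b| ∨ 3 ≤ |expInfty a b n A B|) →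
        |expZero a b| ≤ κ * n → |expInfty a b n A B| ≤ κ * n →
        (∀ t : ℝ, |t| ≤ H → ∀ f : OnePoint ℂ → OnePoint ℂ,
          IsRationalMap (Polynomial.C (Real.exp t : ℂ) * twist a n A) (twist b n B) f →
          volume (julia f ∪ outside f) ≤ ENNReal.ofReal (C * (Real.log n ^ 2 / n)) ∧
          ∀ (μ : ℂ → ℂ) (S : Set ℂ),
            LineField (Polynomial.C (Real.exp t : ℂ) * twist a n A) (twist b n B) f μ S →
            volume S ≤ ENNReal.ofReal (C * (Real.log n ^ 2 / n))) ∧
        volume {t : ℝ | |t| ≤ H ∧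
            ¬ NullOutside (Polynomial.C (Real.exp t : ℂ) * twist a n A) (twist b n B)} ≤
          ENNReal.ofReal (C * (Real.log n ^ 2 / n))) ∧
    (∀ (D : ℕ) (M κ H τ : ℝ), 0 < M → 0 ≤ κ → 0 ≤ H → 0 < τ → ∃ n₀ : ℕ, ∀ n : ℕ, n₀ ≤ n →
      ∀ (a b : ℕ) (A B : ℂ[X]), Normalised D M A B → (a = 0 ∨ b = 0) →
        2 ≤ |expZero a b| → 2 ≤ |expInfty a b n A B| →
        |expZero a b| ≤ κ * n → |expInfty a b n A B| ≤ κ * n →
        volume {t : ℝ | |t| ≤ H ∧
            ¬ NullOutside (Polynomial.C (Real.exp t : ℂ) * twist a n A) (twist b n B)} ≤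
          ENNReal.ofReal τ) ∧
    (∀ (K : ℕ) (M ε : ℝ), 0 < ε → ∃ n₀ : ℕ, ∀ n : ℕ, n₀ ≤ n →
      ∀ i j D : ℕ, i < n → j < n → (i = 0 ∨ j = 0) →
        ¬ (n : ℤ) ∣ (i : ℤ) - j - 1 → ¬ (n : ℤ) ∣ (i : ℤ) - j + 1 →
        1 ≤ D → D ≤ K * n → (D % n = i ∨ D % n = j) →
        ∀ P Q : ℂ[X], P.natDegree ≤ D → Q.natDegree ≤ D →
          (∀ m, ‖P.coeff m‖ ≤ M) → (∀ m, ‖Q.coeff m‖ ≤ M) →
          (∀ m, m % n ≠ i → ‖P.coeff m‖ < ε) → (∀ m, m % n ≠ j → ‖Q.coeff m‖ < ε) →
          ∃ P' Q' : ℂ[X], max P'.natDegree Q'.natDegree = D ∧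
            (∀ m, ‖P'.coeff m - P.coeff m‖ < ε) ∧ (∀ m, ‖Q'.coeff m - Q.coeff m‖ < ε) ∧
            NullJulia P' Q') ∧
    (∀ (K : ℕ) (M ε : ℝ), 0 < ε → ∃ n₀ : ℕ, ∀ n : ℕ, n₀ ≤ n →
      ∀ k : ℤ, ¬ (n : ℤ) ∣ k - 1 → ¬ (n : ℤ) ∣ k + 1 →
        ∀ P Q : ℂ[X], IsCoprime P Q →
          1 ≤ max P.natDegree Q.natDegree → max P.natDegree Q.natDegree ≤ K * n →
          (∀ m, ‖P.coeff m‖ ≤ M) → (∀ m, ‖Q.coeff m‖ ≤ M) → Symmetric n k P Q →
          ∃ P' Q' : ℂ[X], Symmetric n k P' Q' ∧
            max P'.natDegree Q'.natDegree = max P.natDegree Q.natDegree ∧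
            (∀ m, ‖P'.coeff m - P.coeff m‖ < ε) ∧ (∀ m, ‖Q'.coeff m - Q.coeff m‖ < ε) ∧
            NullJulia P' Q') := by
  refine ⟨?_, ?_, ?_, ?_⟩
  · intro D M κ H hM hκ
    obtain ⟨C₁, hC₁, n₁, h₁⟩ := K3h78.LF.area_bound D H hM hκ
    obtain ⟨C₂, hC₂, n₂, h₂⟩ := K3h78.LF.measure_na D H hM hκ
    refine ⟨max C₁ C₂, lt_max_of_lt_left hC₁, max (max n₁ n₂) 9, ?_⟩
    intro n hn a b A B hN hab h0 h1 h01 hκ0 hκ1
    have hr : 0 ≤ Real.log n ^ 2 / n := by positivity
    have hadm : K3h78.RS.Adm (K3h78.RS.expo0 a b) (K3h78.RS.expo1 a b n A B) := by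
      rcases K3h78.RS.adm_or (A := A) (B := B) (by omega : 9 ≤ n) h0 h1 with h | ⟨γ, hγ, h2, h3⟩
      · exact h
      · exfalso
        have h2' : expZero a b = γ := h2
        have h3' : expInfty a b n A B = γ := h3
        have hγ2 : |γ| = 2 := by rcases hγ with rfl | rfl <;> norm_num
        rw [h2', h3', hγ2] at h01
        norm_num at h01
    have m₁ := h₁ n (by omega) a b A B (nrm hN) hab hadm hκ0 hκ1
    have m₂ := h₂ n (by omega) a b A B (nrm hN) hab hadm hκ0 hκ1
    simp only [twist_one] at m₁ m₂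
    simp only [twist_mul] at m₁ m₂
    have c1 : C₁ * (Real.log n ^ 2 / n) ≤ max C₁ C₂ * (Real.log n ^ 2 / n) :=
      mul_le_mul_of_nonneg_right (le_max_left _ _) hr
    have c2 : C₂ * (Real.log n ^ 2 / n) ≤ max C₁ C₂ * (Real.log n ^ 2 / n) :=
      mul_le_mul_of_nonneg_right (le_max_right _ _) hr
    refine ⟨fun t ht f hf => ?_, ?_⟩
    · have h4 := (m₁ t ht f (isRat hf)).trans (ENNReal.ofReal_le_ofReal c1)
      rw [← union_eq] at h4
      exact ⟨h4, fun μ S hS => (measure_mono (hS.sub.trans Set.subset_union_left)).trans h4⟩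
    · refine (measure_mono ?_).trans (m₂.trans (ENNReal.ofReal_le_ofReal c2))
      rintro t ⟨ht, hnot⟩
      exact ⟨ht, fun h => hnot (nullOutside h)⟩
  · intro D M κ H τ hM hκ hH hτ
    obtain ⟨n₀, h⟩ := K3h78.LF.measure_na_all D hM hκ hH hτ
    refine ⟨n₀, ?_⟩
    intro n hn a b A B hN hab h0 h1 hκ0 hκ1
    have m₁ := h n hn a b A B (nrm hN) hab h0 h1 hκ0 hκ1
    simp only [twist_one] at m₁
    simp only [twist_mul] at m₁
    refine (measure_mono ?_).trans m₁
    rintro t ⟨ht, hnot⟩
    exact ⟨ht, fun h => hnot (nullOutside h)⟩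
  · intro K M ε hε
    obtain ⟨n₀, h⟩ := K3h78.LF.nearZ_all K (M := M) hε
    refine ⟨n₀, ?_⟩
    intro n hn i j D hi hj hij h1 h2 hD1 hDK hD P Q hdP hdQ hP hQ hoffP hoffQ
    obtain ⟨P', Q', g1, g2, g3, -, -, g4⟩ := h n hn i j D hi hj hij ⟨h1, h2⟩ hD1 hDK hD P Q hdP hdQ
      hP hQ hoffP hoffQ
    exact ⟨P', Q', g1, g2, g3, nullJulia g4⟩
  · intro K M ε hε
    obtain ⟨n₀, h⟩ := K3h78.LF.symZ_all K (M := M) hε
    refine ⟨n₀, fun n hn k hk1 hk2 P Q hc hD hDK hP hQ hs => ?_⟩
    obtain ⟨P', Q', g1, g2, g3, g4, g5⟩ := h n hn k hk1 hk2 P Q hc hD hDK hP hQ hs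
    exact ⟨P', Q', g1, g2, g3, g4, nullJulia g5⟩

end Pool.Agent.Results.MP_70a088_an.SymmetricMaps
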